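import Pool.Agent.Lib_helper43.RingSynUndec
import Pool.Agent.Lib_helper93.Zab.NatDef

/-!
# The first-order theory of the ring of integers of `ℚ^ab` is undecidable
-/

set_option autoImplicit false

namespace Pool.Agent.Results.MP_d409f8_lc.Undecidable

open Pool.Agent.RingSyn

/-- `ℚ^ab`: the subfield of `ℂ` generated by all roots of unity. -/
noncomputable def Qab : Subfield ℂ := Subfield.closure {z : ℂ | ∃ n : ℕ, 0 < n ∧ z ^ n = 1}

/-- `ℤ^ab`: the elements of `ℚ^ab` that are integral over `ℤ`. -/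
noncomputable def Zab : Subring ℂ where
  carrier := {z | z ∈ Qab ∧ IsIntegral ℤ z}
  mul_mem' ha hb := ⟨mul_mem ha.1 hb.1, ha.2.mul hb.2⟩
  one_mem' := ⟨one_mem _, isIntegral_one⟩
  add_mem' ha hb := ⟨add_mem ha.1 hb.1, ha.2.add hb.2⟩
  zero_mem' := ⟨zero_mem _, isIntegral_zero⟩
  neg_mem' ha := ⟨neg_mem ha.1, ha.2.neg⟩

/-- The first-order theory of `ℤ^ab` in the language of rings is undecidable. -/
theorem result : ¬ DecidableTheory Zab := by
  have e : Zab = Pool.Agent.Zab.OO := by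
    ext z
    exact ⟨fun h => ⟨h.2, h.1⟩, fun h => ⟨h.2, h.1⟩⟩
  rw [e]
  let _ : FirstOrder.Ring.CompatibleRing Pool.Agent.Zab.OO :=
    FirstOrder.Ring.compatibleRingOfRing Pool.Agent.Zab.OO
  exact not_decidableTheory Pool.Agent.Zab.natDef_OO

end Pool.Agent.Results.MP_d409f8_lc.Undecidable
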